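import Mathlib
import Pool.Agent.Lib_helper14.SkewDefs
import Pool.Agent.Lib_helper14.SkewProof

/-!
# A finite skew brace with perfect additive group and almost simple, non-perfect
multiplicative group
-/

namespace Pool.Agent.Results.MP_520f25_al.PerfectAlmostSimple

open Pool.Agent.LibH14.Skew

/-- There is a finite skew brace whose additive group is perfect and whose multiplicative group is
almost simple but not perfect. -/
theorem result : ∃ (B : Type) (_ : SkewBrace B), Finite B ∧
    Group.IsPerfect (Multiplicative B) ∧ IsAlmostSimple B ∧ ¬ Group.IsPerfect B :=
  exists_skewBrace

end Pool.Agent.Results.MP_520f25_al.PerfectAlmostSimple
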